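import Pool.Agent.H66.CBP.Final

/-!
# Almost sure speed of ranked particles under the gap distributions `π_a`

Full positive answer to Q1.  `X` is any weak solution (on any filtered probability space) of the
infinite system of competing Brownian particles with square-summable drifts `g`, started from
`X 0 = 0` and independent gaps of law `Exp (2 (g 0 + ... + g n) + (n + 1) a)`, where
`a > -2 inf_n (average of the first n drifts)`.  Then for every rank `k` the ranked particle
`Y_k(t)` satisfies `Y_k(t) / t → -a / 2` almost surely.  Indices and ranks start at `0`.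
-/

open MeasureTheory ProbabilityTheory Filter
open scoped NNReal Topology

namespace Pool.Agent.Results.MP_2a679d_pr.RankedSpeed

open Pool.Agent.H66.CBP in
theorem result {Ω : Type*} {mΩ : MeasurableSpace Ω} (P : Measure Ω) [IsProbabilityMeasure P]
    (𝓕 : Filtration ℝ≥0 mΩ) (g : ℕ → ℝ) (hg : Summable fun n => g n ^ 2) (a : ℝ)
    (ha : -2 * (⨅ n : ℕ, (∑ j ∈ Finset.range (n + 1), g j) / ((n : ℝ) + 1)) < a)
    (W X : ℕ → ℝ≥0 → Ω → ℝ) (hX : IsCompetingSystem P 𝓕 g W X)
    (h0 : ∀ᵐ ω ∂P, X 0 0 ω = 0)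
    (hind : iIndepFun (fun (n : ℕ) (ω : Ω) => X (n + 1) 0 ω - X n 0 ω) P)
    (hlaw : ∀ n : ℕ, HasLaw (fun ω => X (n + 1) 0 ω - X n 0 ω)
      (expMeasure (2 * ∑ j ∈ Finset.range (n + 1), g j + ((n : ℝ) + 1) * a)) P)
    (k : ℕ) :
    ∀ᵐ ω ∂P, Tendsto (fun t : ℝ≥0 => X (rankPerm (fun j => X j t ω) k) t ω / (t : ℝ)) atTop
      (𝓝 (-(a / 2))) := by
  have hg0 := tendsto_of_sq_summable hg
  obtain ⟨ha0, γ, hγ, hc⟩ := drift_cond hg0 ha
  exact speed hX hg0 ha0 hγ hc h0 hind hlaw k

end Pool.Agent.Results.MP_2a679d_pr.RankedSpeed
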